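import Pool.Agent.W543.MO.Parts

/-!
# MP_6c4da4_ag: MO-RADMAT, zero radical passes to the matrix category
-/

set_option autoImplicit false

open CategoryTheory

namespace Pool.Agent.W571.MOT

open Pool.Agent.W543.MO

open Classical in
/-- the matrix with a single entry -/
noncomputable def sing {𝒟 : Type 1} [Category.{0} 𝒟] [Preadditive 𝒟] {M N : Mat_ 𝒟}
    (i : M.ι) (j : N.ι) (u : N.X j ⟶ M.X i) : N ⟶ M :=
  fun b a => if hb : b = j then if ha : a = i then
    eqToHom (congrArg N.X hb) ≫ u ≫ eqToHom (congrArg M.X ha).symm else 0 else 0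

theorem t_RADMAT : RADMAT_stmt := by
  intro D _ _ h M N f hf
  apply Mat_.hom_ext
  intro i j
  show f i j = 0
  apply h
  intro u
  obtain ⟨n, hn⟩ := hf (sing i j u)
  refine ⟨n, ?_⟩
  have hP0 : ∀ a c, c ≠ i → (f ≫ sing i j u) a c = 0 := by
    intro a c hc
    rw [Mat_.comp_apply]
    refine Finset.sum_eq_zero fun b _ => ?_
    have : sing i j u b c = 0 := by
      unfold sing
      split_ifs with h1
      · rfl
      · rfl
    rw [this, Limits.comp_zero]
  have hPi : (f ≫ sing i j u) i i = f i j ≫ u := by
    rw [Mat_.comp_apply, Finset.sum_eq_single j]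
    · unfold sing
      simp
    · intro b _ hb
      have : sing i j u b i = 0 := by
        unfold sing
        rw [dif_neg hb]
      rw [this, Limits.comp_zero]
    · intro hj; exact absurd (Finset.mem_univ _) hj
  have key : ∀ m : ℕ, (show Mat_.Hom M M from ((show End M from f ≫ sing i j u) ^ m)) i i =
      (show M.X i ⟶ M.X i from ((show End (M.X i) from f i j ≫ u) ^ m)) := by
    intro m
    induction m with
    | zero => exact Mat_.id_apply_self M i
    | succ m ih =>
      have e1 : (show End M from f ≫ sing i j u) ^ (m + 1) =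
        (f ≫ sing i j u) ≫ (show M ⟶ M from ((show End M from f ≫ sing i j u) ^ m)) := pow_succ _ _
      have e2 : (show End (M.X i) from f i j ≫ u) ^ (m + 1) =
        (f i j ≫ u) ≫ (show M.X i ⟶ M.X i from ((show End (M.X i) from f i j ≫ u) ^ m)) :=
          pow_succ _ _
      rw [e1, e2, ← ih]
      show ∑ c, (f ≫ sing i j u) i c ≫ _ = _
      rw [Finset.sum_eq_single i]
      · rw [hPi]
      · intro c _ hc
        rw [hP0 i c hc, Limits.zero_comp]
      · intro hj; exact absurd (Finset.mem_univ _) hj
  refine (key n).symm.trans ?_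
  rw [hn]
  rfl

end Pool.Agent.W571.MOT
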